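import Mathlib

set_option autoImplicit false

/-!
# Separated stubby families in `ℝ³` with many geometric permutations

Put `N + 1` unit balls far away in the horizontal plane, at `R (cos 2mφ, sin 2mφ, 0)`, and two
convex bodies `SA` (below) and `SB` (above) at the origin, separated by a horizontal gap of height
`2δ`. A plane `z = σ · p` through the origin meets all balls iff `σ` lies in a polygon, and it
meets `SA` and `SB` iff `σ` lies outside a disc. If the disc is slightly smaller than the polygon,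
only the corners of the polygon remain, and the planes of different corners induce different
geometric permutations.
-/

namespace Pool.Agent.Results.MP_2c58a9_co.ManyPerms

/-- Euclidean `d`-space. -/
abbrev E (d : ℕ) := EuclideanSpace ℝ (Fin d)

/-- `a` is `ρ`-stubby: it contains a ball of radius `1` and is contained in a ball of
radius `ρ`. -/
def Stubby {d : ℕ} (ρ : ℝ) (a : Set (E d)) : Prop :=
  (∃ x : E d, Metric.closedBall x 1 ⊆ a) ∧ ∃ y : E d, a ⊆ Metric.closedBall y ρ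

/-- The family `A` is `(d-2)`-separated: no `(d-2)`-dimensional affine flat meets `d` different
members. -/
def Separated {d : ℕ} {ι : Type} (A : ι → Set (E d)) : Prop :=
  ∀ f : Fin d → ι, Function.Injective f → ∀ F : AffineSubspace ℝ (E d),
    Module.finrank ℝ F.direction = d - 2 → ¬ ∀ i, (A (f i) ∩ (F : Set (E d))).Nonempty

/-- The orientation of the `d`-tuple `x` of points of a hyperplane, oriented by its normal `u`:
the sign of the determinant with rows `u, x₁ - x₀, …, x_{d-1} - x₀`. -/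
noncomputable def orient {d : ℕ} [NeZero d] (u : E d) (x : Fin d → E d) : SignType :=
  SignType.sign (Matrix.det (Matrix.of fun i j : Fin d => if i = 0 then u j else x i j - x 0 j))

/-- The order type of the points `p i` of a hyperplane oriented by its normal `u`: the
orientations of all `d`-tuples. -/
noncomputable def orderType {d : ℕ} [NeZero d] {ι : Type} (u : E d) (p : ι → E d) :
    (Fin d → ι) → SignType :=
  fun f => orient u (fun i => p (f i))

/-- The geometric permutations of `A`: for a hyperplane transversal `{x | ⟪u, x⟫ = c}` and points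
`p i` of `A i` on it, the unordered pair of the order types of the points for the two
orientations `u` and `-u` of the hyperplane. -/
def geomPerms {d : ℕ} [NeZero d] {ι : Type} (A : ι → Set (E d)) :
    Set (Set ((Fin d → ι) → SignType)) :=
  {P | ∃ (u : E d) (c : ℝ) (p : ι → E d), ‖u‖ = 1 ∧ (∀ i, p i ∈ A i ∧ inner ℝ u (p i) = c) ∧
    P = {orderType u p, orderType (-u) p}}

/-! ## Coordinates -/

/-- the point with horizontal part `z` and height `h` -/
noncomputable def vec (z : ℂ) (h : ℝ) : E 3 := !₂[z.re, z.im, h]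

/-- the horizontal part -/
noncomputable def pr (x : E 3) : ℂ := ⟨x 0, x 1⟩

/-- planar cross product -/
def cr (z w : ℂ) : ℝ := z.re * w.im - z.im * w.re

lemma vec0 (z : ℂ) (h : ℝ) : vec z h 0 = z.re := by simp [vec]
lemma vec1 (z : ℂ) (h : ℝ) : vec z h 1 = z.im := by simp [vec]
lemma vec2 (z : ℂ) (h : ℝ) : vec z h 2 = h := by simp [vec]

lemma pr_vec (z : ℂ) (h : ℝ) : pr (vec z h) = z := by
  apply Complex.ext <;> simp [pr, vec]

lemma norm_sq (x : E 3) : ‖x‖ ^ 2 = ‖pr x‖ ^ 2 + x 2 ^ 2 := by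
  rw [EuclideanSpace.norm_sq_eq, Fin.sum_univ_three, Complex.sq_norm, Complex.normSq_apply]
  simp only [pr, Real.norm_eq_abs, sq_abs]
  ring

lemma pr_sub (x y : E 3) : pr (x - y) = pr x - pr y := by
  apply Complex.ext <;> simp [pr]

lemma abs_cr_le (z w : ℂ) : |cr z w| ≤ ‖z‖ * ‖w‖ := by
  have h1 : cr z w = ((starRingEnd ℂ) z * w).im := by
    simp [cr]
    ring
  rw [h1]
  calc |((starRingEnd ℂ) z * w).im| ≤ ‖(starRingEnd ℂ) z * w‖ := Complex.abs_im_le_norm _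
    _ = ‖z‖ * ‖w‖ := by rw [norm_mul, Complex.norm_conj]

lemma cr_add_left (a b c : ℂ) : cr (a + b) c = cr a c + cr b c := by simp [cr]; ring
lemma cr_add_right (a b c : ℂ) : cr a (b + c) = cr a b + cr a c := by simp [cr]; ring

lemma cr_smul_smul (R : ℝ) (a b : ℂ) : cr ((R : ℂ) * a) ((R : ℂ) * b) = R ^ 2 * cr a b := by
  simp [cr]; ring

/-- Collinear points have vanishing cross products. -/
lemma col_cross {x y z : E 3} {F : AffineSubspace ℝ (E 3)}
    (hF : Module.finrank ℝ F.direction = 1) (hx : x ∈ F) (hy : y ∈ F) (hz : z ∈ F)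
    (a b : Fin 3) : (y a - x a) * (z b - x b) = (y b - x b) * (z a - x a) := by
  obtain ⟨v, hv, hall⟩ := finrank_eq_one_iff'.1 hF
  obtain ⟨c1, h1⟩ := hall ⟨y -ᵥ x, AffineSubspace.vsub_mem_direction hy hx⟩
  obtain ⟨c2, h2⟩ := hall ⟨z -ᵥ x, AffineSubspace.vsub_mem_direction hz hx⟩
  have h1' : c1 • (v : E 3) = y - x := by
    have := congrArg (Subtype.val) h1
    simpa using this
  have h2' : c2 • (v : E 3) = z - x := by
    have := congrArg (Subtype.val) h2
    simpa using this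
  have e1 : ∀ i, y i - x i = c1 * (v : E 3) i := by
    intro i
    have := congrArg (fun t : E 3 => t i) h1'
    simpa using this.symm
  have e2 : ∀ i, z i - x i = c2 * (v : E 3) i := by
    intro i
    have := congrArg (fun t : E 3 => t i) h2'
    simpa using this.symm
  rw [e1, e1, e2, e2]
  ring

lemma col_cr {x y z : E 3} {F : AffineSubspace ℝ (E 3)}
    (hF : Module.finrank ℝ F.direction = 1) (hx : x ∈ F) (hy : y ∈ F) (hz : z ∈ F) :
    cr (pr y - pr x) (pr z - pr x) = 0 := by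
  have := col_cross hF hx hy hz 0 1
  simp only [cr, pr, Complex.sub_re, Complex.sub_im]
  linarith

/-- Perturbation of a noncollinear triple of far away points. -/
lemma far_noncollinear {w1 w2 w3 x1 x2 x3 : ℂ} {R M : ℝ} (hM : 0 ≤ M) (hR : 0 ≤ R)
    (h1 : ‖x1 - R * w1‖ ≤ M) (h2 : ‖x2 - R * w2‖ ≤ M) (h3 : ‖x3 - R * w3‖ ≤ M)
    (hw1 : ‖w1‖ ≤ 1) (hw2 : ‖w2‖ ≤ 1) (hw3 : ‖w3‖ ≤ 1)
    (hbig : 8 * M * R + 4 * M ^ 2 < R ^ 2 * |cr (w2 - w1) (w3 - w1)|) :
    cr (x2 - x1) (x3 - x1) ≠ 0 := by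
  intro h0
  set e2 : ℂ := (x2 - R * w2) - (x1 - R * w1) with he2
  set e3 : ℂ := (x3 - R * w3) - (x1 - R * w1) with he3
  have hx2 : x2 - x1 = R * (w2 - w1) + e2 := by rw [he2]; ring
  have hx3 : x3 - x1 = R * (w3 - w1) + e3 := by rw [he3]; ring
  have ne2 : ‖e2‖ ≤ 2 * M := by
    calc ‖e2‖ ≤ ‖x2 - R * w2‖ + ‖x1 - R * w1‖ := norm_sub_le _ _
      _ ≤ 2 * M := by linarith
  have ne3 : ‖e3‖ ≤ 2 * M := by
    calc ‖e3‖ ≤ ‖x3 - R * w3‖ + ‖x1 - R * w1‖ := norm_sub_le _ _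
      _ ≤ 2 * M := by linarith
  have nw2 : ‖(R : ℂ) * (w2 - w1)‖ ≤ 2 * R := by
    rw [norm_mul, Complex.norm_real, Real.norm_of_nonneg hR]
    have : ‖w2 - w1‖ ≤ 2 := (norm_sub_le _ _).trans (by linarith)
    nlinarith
  have nw3 : ‖(R : ℂ) * (w3 - w1)‖ ≤ 2 * R := by
    rw [norm_mul, Complex.norm_real, Real.norm_of_nonneg hR]
    have : ‖w3 - w1‖ ≤ 2 := (norm_sub_le _ _).trans (by linarith)
    nlinarith
  rw [hx2, hx3, cr_add_left, cr_add_right, cr_add_right, cr_smul_smul] at h0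
  have a1 : |cr (R * (w2 - w1)) e3| ≤ 2 * R * (2 * M) :=
    (abs_cr_le _ _).trans (mul_le_mul nw2 ne3 (norm_nonneg _) (by linarith))
  have a2 : |cr e2 (R * (w3 - w1))| ≤ 2 * M * (2 * R) :=
    (abs_cr_le _ _).trans (mul_le_mul ne2 nw3 (norm_nonneg _) (by linarith))
  have a3 : |cr e2 e3| ≤ 2 * M * (2 * M) :=
    (abs_cr_le _ _).trans (mul_le_mul ne2 ne3 (norm_nonneg _) (by linarith))
  have h4 : R ^ 2 * cr (w2 - w1) (w3 - w1) =
      -(cr (R * (w2 - w1)) e3 + cr e2 (R * (w3 - w1)) + cr e2 e3) := by linarith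
  have h5 : R ^ 2 * |cr (w2 - w1) (w3 - w1)| ≤ 2 * R * (2 * M) + 2 * M * (2 * R) +
      2 * M * (2 * M) := by
    calc R ^ 2 * |cr (w2 - w1) (w3 - w1)| = |R ^ 2 * cr (w2 - w1) (w3 - w1)| := by
          rw [abs_mul, abs_of_nonneg (sq_nonneg R)]
      _ = |cr (R * (w2 - w1)) e3 + cr e2 (R * (w3 - w1)) + cr e2 e3| := by rw [h4, abs_neg]
      _ ≤ |cr (R * (w2 - w1)) e3| + |cr e2 (R * (w3 - w1))| + |cr e2 e3| := abs_add_three _ _ _
      _ ≤ _ := by linarith
  nlinarith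

/-! ## The sets -/

/-- the lower body at the origin -/
def SA (ρ δ : ℝ) : Set (E 3) := Metric.closedBall (vec 0 (-1 - δ)) ρ ∩ {x | x 2 ≤ -δ}

/-- the upper body at the origin -/
def SB (ρ δ : ℝ) : Set (E 3) := Metric.closedBall (vec 0 (1 + δ)) ρ ∩ {x | δ ≤ x 2}

/-- the far away unit balls -/
def SC (R : ℝ) (w : ℂ) : Set (E 3) := Metric.closedBall (vec (R * w) 0) 1

lemma norm_sub_vec (x : E 3) (z : ℂ) (h : ℝ) :
    ‖x - vec z h‖ ^ 2 = ‖pr x - z‖ ^ 2 + (x 2 - h) ^ 2 := by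
  rw [norm_sq, pr_sub, pr_vec]
  simp [vec]

lemma mem_SA {ρ δ : ℝ} (hρ : 0 ≤ ρ) {x : E 3} :
    x ∈ SA ρ δ ↔ ‖pr x‖ ^ 2 + (x 2 + 1 + δ) ^ 2 ≤ ρ ^ 2 ∧ x 2 ≤ -δ := by
  unfold SA
  rw [Set.mem_inter_iff, Metric.mem_closedBall, dist_eq_norm, Set.mem_ofPred_eq,
    ← sq_le_sq₀ (norm_nonneg _) hρ, norm_sub_vec, sub_zero]
  have : x 2 - (-1 - δ) = x 2 + 1 + δ := by ring
  rw [this]

lemma mem_SB {ρ δ : ℝ} (hρ : 0 ≤ ρ) {x : E 3} :
    x ∈ SB ρ δ ↔ ‖pr x‖ ^ 2 + (x 2 - 1 - δ) ^ 2 ≤ ρ ^ 2 ∧ δ ≤ x 2 := by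
  unfold SB
  rw [Set.mem_inter_iff, Metric.mem_closedBall, dist_eq_norm, Set.mem_ofPred_eq,
    ← sq_le_sq₀ (norm_nonneg _) hρ, norm_sub_vec, sub_zero]
  have : x 2 - (1 + δ) = x 2 - 1 - δ := by ring
  rw [this]

lemma mem_SC {R : ℝ} {w : ℂ} {x : E 3} :
    x ∈ SC R w ↔ ‖pr x - R * w‖ ^ 2 + (x 2) ^ 2 ≤ 1 := by
  unfold SC
  rw [Metric.mem_closedBall, dist_eq_norm, ← sq_le_sq₀ (norm_nonneg _) zero_le_one, norm_sub_vec,
    sub_zero, one_pow]

lemma continuous_coord : Continuous fun x : E 3 => x 2 := by fun_prop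

lemma SA_compact (ρ δ : ℝ) : IsCompact (SA ρ δ) :=
  (isCompact_closedBall _ _).inter_right (isClosed_le continuous_coord continuous_const)

lemma SB_compact (ρ δ : ℝ) : IsCompact (SB ρ δ) :=
  (isCompact_closedBall _ _).inter_right (isClosed_le continuous_const continuous_coord)

lemma SA_convex (ρ δ : ℝ) : Convex ℝ (SA ρ δ) := by
  refine (convex_closedBall _ _).inter ?_
  intro x hx y hy a b ha hb hab
  simp only [Set.mem_ofPred_eq, PiLp.add_apply, PiLp.smul_apply, smul_eq_mul] at *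
  have h1 := mul_le_mul_of_nonneg_left hx ha
  have h2 := mul_le_mul_of_nonneg_left hy hb
  have h3 : a * (-δ) + b * (-δ) = -δ := by rw [← add_mul, hab, one_mul]
  linarith

lemma SB_convex (ρ δ : ℝ) : Convex ℝ (SB ρ δ) := by
  refine (convex_closedBall _ _).inter ?_
  intro x hx y hy a b ha hb hab
  simp only [Set.mem_ofPred_eq, PiLp.add_apply, PiLp.smul_apply, smul_eq_mul] at *
  have h1 := mul_le_mul_of_nonneg_left hx ha
  have h2 := mul_le_mul_of_nonneg_left hy hb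
  have h3 : a * δ + b * δ = δ := by rw [← add_mul, hab, one_mul]
  linarith

lemma SA_stubby {ρ δ : ℝ} (hρ : 1 < ρ) : Stubby ρ (SA ρ δ) := by
  refine ⟨⟨vec 0 (-1 - δ), ?_⟩, ⟨vec 0 (-1 - δ), Set.inter_subset_left⟩⟩
  intro x hx
  refine ⟨Metric.closedBall_subset_closedBall hρ.le hx, ?_⟩
  rw [Metric.mem_closedBall, dist_eq_norm, ← sq_le_sq₀ (norm_nonneg _) zero_le_one,
    norm_sub_vec] at hx
  simp only [Set.mem_ofPred_eq]
  nlinarith [sq_nonneg ‖pr x - 0‖, sq_nonneg (x 2 - (-1 - δ))]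

lemma SB_stubby {ρ δ : ℝ} (hρ : 1 < ρ) : Stubby ρ (SB ρ δ) := by
  refine ⟨⟨vec 0 (1 + δ), ?_⟩, ⟨vec 0 (1 + δ), Set.inter_subset_left⟩⟩
  intro x hx
  refine ⟨Metric.closedBall_subset_closedBall hρ.le hx, ?_⟩
  rw [Metric.mem_closedBall, dist_eq_norm, ← sq_le_sq₀ (norm_nonneg _) zero_le_one,
    norm_sub_vec] at hx
  simp only [Set.mem_ofPred_eq]
  nlinarith [sq_nonneg ‖pr x - 0‖, sq_nonneg (x 2 - (1 + δ))]

lemma SC_stubby {ρ R : ℝ} {w : ℂ} (hρ : 1 < ρ) : Stubby ρ (SC R w) :=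
  ⟨⟨_, Set.Subset.rfl⟩, ⟨_, Metric.closedBall_subset_closedBall hρ.le⟩⟩

lemma SA_pr {ρ δ : ℝ} (hρ : 0 ≤ ρ) {x : E 3} (hx : x ∈ SA ρ δ) : ‖pr x‖ ≤ ρ := by
  rw [mem_SA hρ] at hx
  rw [← sq_le_sq₀ (norm_nonneg _) hρ]
  nlinarith [hx.1, sq_nonneg (x 2 + 1 + δ)]

lemma SB_pr {ρ δ : ℝ} (hρ : 0 ≤ ρ) {x : E 3} (hx : x ∈ SB ρ δ) : ‖pr x‖ ≤ ρ := by
  rw [mem_SB hρ] at hx
  rw [← sq_le_sq₀ (norm_nonneg _) hρ]
  nlinarith [hx.1, sq_nonneg (x 2 - 1 - δ)]

lemma SC_pr {R : ℝ} {w : ℂ} {x : E 3} (hx : x ∈ SC R w) : ‖pr x - R * w‖ ≤ 1 := by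
  rw [mem_SC] at hx
  rw [← sq_le_sq₀ (norm_nonneg _) zero_le_one]
  nlinarith [sq_nonneg (x 2)]

lemma SC_height {R : ℝ} {w : ℂ} {x : E 3} (hx : x ∈ SC R w) : |x 2| ≤ 1 := by
  rw [mem_SC] at hx
  rw [abs_le_one_iff_mul_self_le_one]
  nlinarith [sq_nonneg ‖pr x - R * w‖]

/-- The profile of the lower body. -/
lemma SA_profile {ρ δ s : ℝ} (hρ : 0 ≤ ρ) (hs : 0 < s) (hs2 : s ^ 2 = ρ ^ 2 - 1) {x : E 3}
    (hx : x ∈ SA ρ δ) : s * ‖pr x‖ ≤ s ^ 2 + (-δ - x 2) := by
  rw [mem_SA hρ] at hx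
  obtain ⟨h1, h2⟩ := hx
  have ht : 0 ≤ -δ - x 2 := by linarith
  have h3 : ‖pr x‖ ^ 2 ≤ s ^ 2 + 2 * (-δ - x 2) - (-δ - x 2) ^ 2 := by nlinarith
  rw [← sq_le_sq₀ (by positivity) (by positivity), mul_pow]
  have h4 : s ^ 2 * ‖pr x‖ ^ 2 ≤ s ^ 2 * (s ^ 2 + 2 * (-δ - x 2) - (-δ - x 2) ^ 2) :=
    mul_le_mul_of_nonneg_left h3 (sq_nonneg s)
  nlinarith [mul_nonneg (sq_nonneg s) (sq_nonneg (-δ - x 2)), sq_nonneg (-δ - x 2)]

lemma SB_profile {ρ δ s : ℝ} (hρ : 0 ≤ ρ) (hs : 0 < s) (hs2 : s ^ 2 = ρ ^ 2 - 1) {x : E 3}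
    (hx : x ∈ SB ρ δ) : s * ‖pr x‖ ≤ s ^ 2 + (x 2 - δ) := by
  rw [mem_SB hρ] at hx
  obtain ⟨h1, h2⟩ := hx
  have ht : 0 ≤ x 2 - δ := by linarith
  have h3 : ‖pr x‖ ^ 2 ≤ s ^ 2 + 2 * (x 2 - δ) - (x 2 - δ) ^ 2 := by nlinarith
  rw [← sq_le_sq₀ (by positivity) (by positivity), mul_pow]
  have h4 : s ^ 2 * ‖pr x‖ ^ 2 ≤ s ^ 2 * (s ^ 2 + 2 * (x 2 - δ) - (x 2 - δ) ^ 2) :=
    mul_le_mul_of_nonneg_left h3 (sq_nonneg s)
  nlinarith [mul_nonneg (sq_nonneg s) (sq_nonneg (x 2 - δ)), sq_nonneg (x 2 - δ)]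

/-- No line meets the lower body, the upper body and a far away ball. -/
lemma no_line_ABC {ρ δ s R : ℝ} {w : ℂ} (hρ : 1 < ρ) (hs : 0 < s) (hs2 : s ^ 2 = ρ ^ 2 - 1)
    (hδ : 0 < δ) (hw : ‖w‖ = 1) (hR0 : 0 ≤ R) (hR1 : 1 ≤ s * (R - 1 - ρ))
    (hR2 : s < δ * (R - 1 - ρ)) {F : AffineSubspace ℝ (E 3)}
    (hF : Module.finrank ℝ F.direction = 1) {a b c : E 3} (haF : a ∈ F) (hbF : b ∈ F)
    (hcF : c ∈ F) (ha : a ∈ SA ρ δ) (hb : b ∈ SB ρ δ) (hc : c ∈ SC R w) : False := by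
  have hρ0 : 0 ≤ ρ := by linarith
  have pa := SA_profile hρ0 hs hs2 ha
  have pb := SB_profile hρ0 hs hs2 hb
  have qa := SA_pr hρ0 ha
  have qb := SB_pr hρ0 hb
  have qc := SC_pr hc
  have hc2 := SC_height hc
  have ha2 : a 2 ≤ -δ := ha.2
  have hb2 : δ ≤ b 2 := hb.2
  have c0 := col_cross hF haF hbF hcF 0 2
  have c1 := col_cross hF haF hbF hcF 1 2
  have key : ((b 2 - a 2 : ℝ) : ℂ) * pr c =
      (b 2 : ℂ) * pr a - (a 2 : ℂ) * pr b + (c 2 : ℂ) * (pr b - pr a) := by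
    apply Complex.ext
    · simp [pr]
      linarith
    · simp [pr]
      linarith
  have hD : 0 < b 2 - a 2 := by linarith
  have n1 : ‖((b 2 - a 2 : ℝ) : ℂ) * pr c‖ ≤ (b 2 - a 2) * ρ + (‖pr a‖ + ‖pr b‖) := by
    rw [key]
    have e1 : ‖(b 2 : ℂ) * pr a‖ ≤ b 2 * ρ := by
      rw [norm_mul, Complex.norm_real, Real.norm_of_nonneg (by linarith)]
      exact mul_le_mul_of_nonneg_left qa (by linarith)
    have e2 : ‖(a 2 : ℂ) * pr b‖ ≤ -(a 2) * ρ := by
      rw [norm_mul, Complex.norm_real, Real.norm_of_nonpos (by linarith)]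
      exact mul_le_mul_of_nonneg_left qb (by linarith)
    have e3 : ‖(c 2 : ℂ) * (pr b - pr a)‖ ≤ ‖pr a‖ + ‖pr b‖ := by
      rw [norm_mul, Complex.norm_real, Real.norm_eq_abs]
      calc |c 2| * ‖pr b - pr a‖ ≤ 1 * ‖pr b - pr a‖ :=
            mul_le_mul_of_nonneg_right hc2 (norm_nonneg _)
        _ = ‖pr b - pr a‖ := one_mul _
        _ ≤ ‖pr b‖ + ‖pr a‖ := norm_sub_le _ _
        _ = _ := add_comm _ _
    calc ‖(b 2 : ℂ) * pr a - (a 2 : ℂ) * pr b + (c 2 : ℂ) * (pr b - pr a)‖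
        ≤ ‖(b 2 : ℂ) * pr a - (a 2 : ℂ) * pr b‖ + ‖(c 2 : ℂ) * (pr b - pr a)‖ := norm_add_le _ _
      _ ≤ ‖(b 2 : ℂ) * pr a‖ + ‖(a 2 : ℂ) * pr b‖ + ‖(c 2 : ℂ) * (pr b - pr a)‖ := by
          gcongr
          exact norm_sub_le _ _
      _ ≤ _ := by linarith
  have n2 : R - 1 ≤ ‖pr c‖ := by
    have h1 : ‖(R : ℂ) * w‖ = R := by
      rw [norm_mul, Complex.norm_real, Real.norm_of_nonneg hR0, hw, mul_one]
    have h2 : ‖(R : ℂ) * w‖ ≤ ‖pr c‖ + ‖pr c - R * w‖ := by
      calc ‖(R : ℂ) * w‖ = ‖pr c - (pr c - R * w)‖ := by congr 1; ring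
        _ ≤ _ := norm_sub_le _ _
    linarith
  rw [norm_mul, Complex.norm_real, Real.norm_of_nonneg hD.le] at n1
  have n3 : (b 2 - a 2) * (R - 1) ≤ (b 2 - a 2) * ρ + (‖pr a‖ + ‖pr b‖) :=
    (mul_le_mul_of_nonneg_left n2 hD.le).trans n1
  have n4 : s * ((b 2 - a 2) * (R - 1 - ρ)) ≤ 2 * s ^ 2 + (b 2 - a 2) - 2 * δ := by
    have := mul_le_mul_of_nonneg_left n3 hs.le
    nlinarith
  have n5 : (b 2 - a 2) * (s * (R - 1 - ρ) - 1) ≤ 2 * (s ^ 2 - δ) := by nlinarith
  have n6 : 2 * δ * (s * (R - 1 - ρ) - 1) ≤ (b 2 - a 2) * (s * (R - 1 - ρ) - 1) :=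
    mul_le_mul_of_nonneg_right (by linarith) (by linarith)
  have n7 : s * (δ * (R - 1 - ρ)) ≤ s * s := by nlinarith
  have n8 := le_of_mul_le_mul_left n7 hs
  linarith

/-! ## Directions -/

/-- the unit vector of angle `t` -/
noncomputable def uv (t : ℝ) : ℂ := ⟨Real.cos t, Real.sin t⟩

lemma norm_uv (t : ℝ) : ‖uv t‖ = 1 := by
  have : ‖uv t‖ ^ 2 = 1 := by
    rw [Complex.sq_norm, Complex.normSq_apply]
    simp only [uv]
    nlinarith [Real.sin_sq_add_cos_sq t]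
  nlinarith [norm_nonneg (uv t)]

lemma cr_uv (t t' : ℝ) : cr (uv t) (uv t') = Real.sin (t' - t) := by
  rw [Real.sin_sub]
  simp only [cr, uv]
  ring

/-- Three different points of a circle are not collinear. -/
lemma cr_unit {w1 w2 w3 : ℂ} (h1 : ‖w1‖ = 1) (h2 : ‖w2‖ = 1) (h3 : ‖w3‖ = 1)
    (h12 : w1 ≠ w2) (h13 : w1 ≠ w3) (h23 : w2 ≠ w3) : cr (w2 - w1) (w3 - w1) ≠ 0 := by
  intro h0
  have e1 : w1.re * w1.re + w1.im * w1.im = 1 := by
    rw [← Complex.normSq_apply, ← Complex.sq_norm, h1, one_pow]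
  have e2 : w2.re * w2.re + w2.im * w2.im = 1 := by
    rw [← Complex.normSq_apply, ← Complex.sq_norm, h2, one_pow]
  have e3 : w3.re * w3.re + w3.im * w3.im = 1 := by
    rw [← Complex.normSq_apply, ← Complex.sq_norm, h3, one_pow]
  simp only [cr, Complex.sub_re, Complex.sub_im] at h0
  set a := w2.re - w1.re with ha
  set b := w2.im - w1.im with hb
  have hab : 0 < a ^ 2 + b ^ 2 := by
    by_contra hcon
    have ha0 : a = 0 := by nlinarith [sq_nonneg a, sq_nonneg b]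
    have hb0 : b = 0 := by nlinarith [sq_nonneg a, sq_nonneg b]
    apply h12
    apply Complex.ext <;> linarith
  obtain ⟨t, ht1, ht2⟩ : ∃ t : ℝ, w3.re - w1.re = t * a ∧ w3.im - w1.im = t * b := by
    refine ⟨((w3.re - w1.re) * a + (w3.im - w1.im) * b) / (a ^ 2 + b ^ 2), ?_, ?_⟩
    · field_simp
      linear_combination -b * h0
    · field_simp
      linear_combination a * h0
  have g1 : 2 * (w1.re * a + w1.im * b) + (a ^ 2 + b ^ 2) = 0 := by
    rw [ha, hb]; linear_combination e2 - e1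
  have g2 : 2 * t * (w1.re * a + w1.im * b) + t ^ 2 * (a ^ 2 + b ^ 2) = 0 := by
    have r3 : w3.re = w1.re + t * a := by linarith
    have i3 : w3.im = w1.im + t * b := by linarith
    rw [r3, i3] at e3
    linear_combination e3 - e1
  have g3 : t * (t - 1) * (a ^ 2 + b ^ 2) = 0 := by linear_combination g2 - t * g1
  rcases mul_eq_zero.1 g3 with g4 | g4
  · rcases mul_eq_zero.1 g4 with g5 | g5
    · apply h13
      apply Complex.ext
      · rw [g5] at ht1; linarith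
      · rw [g5] at ht2; linarith
    · apply h23
      have ht : t = 1 := by linarith
      rw [ht] at ht1 ht2
      apply Complex.ext <;> linarith
  · exact hab.ne' g4

/-- the angle unit -/
noncomputable def ang (N : ℕ) : ℝ := Real.pi / (4 * N + 4)

lemma ang_pos (N : ℕ) : 0 < ang N := by
  unfold ang
  have := Real.pi_pos
  positivity

lemma ang_mul (N : ℕ) : ang N * (4 * N + 4) = Real.pi := by
  unfold ang
  field_simp

/-- horizontal directions of the members: `0` for the two bodies at the origin -/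
noncomputable def W (N : ℕ) : Fin (N + 3) → ℂ :=
  Fin.cons 0 (Fin.cons 0 fun m : Fin (N + 1) => uv (2 * m * ang N))

/-- the family -/
noncomputable def fam (N : ℕ) (ρ δ R : ℝ) : Fin (N + 3) → Set (E 3) :=
  Fin.cons (SA ρ δ) (Fin.cons (SB ρ δ) fun m : Fin (N + 1) => SC R (uv (2 * m * ang N)))

lemma W_zero (N : ℕ) : W N 0 = 0 := rfl
lemma W_one (N : ℕ) : W N 1 = 0 := rfl
lemma W_ss (N : ℕ) (m : Fin (N + 1)) : W N m.succ.succ = uv (2 * m * ang N) := rfl
lemma fam_zero (N : ℕ) (ρ δ R : ℝ) : fam N ρ δ R 0 = SA ρ δ := rfl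
lemma fam_one (N : ℕ) (ρ δ R : ℝ) : fam N ρ δ R 1 = SB ρ δ := rfl
lemma fam_ss (N : ℕ) (ρ δ R : ℝ) (m : Fin (N + 1)) :
    fam N ρ δ R m.succ.succ = SC R (uv (2 * m * ang N)) := rfl

lemma cases3 {N : ℕ} (i : Fin (N + 3)) : i = 0 ∨ i = 1 ∨ ∃ m : Fin (N + 1), i = m.succ.succ := by
  refine Fin.cases (Or.inl rfl) (fun j => ?_) i
  refine Fin.cases (Or.inr (Or.inl rfl)) (fun m => ?_) j
  exact Or.inr (Or.inr ⟨m, rfl⟩)

lemma norm_W_le (N : ℕ) (i : Fin (N + 3)) : ‖W N i‖ ≤ 1 := by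
  rcases cases3 i with rfl | rfl | ⟨m, rfl⟩
  · rw [W_zero]; simp
  · rw [W_one]; simp
  · rw [W_ss, norm_uv]

lemma sin_diff_ne {N : ℕ} {m l : Fin (N + 1)} (h : m ≠ l) :
    Real.sin (2 * l * ang N - 2 * m * ang N) ≠ 0 := by
  have hp := ang_pos N
  have hm := ang_mul N
  have hml : (m : ℕ) ≠ l := fun h' => h (Fin.ext h')
  have hm1 : (m : ℕ) ≤ N := Nat.lt_succ_iff.1 m.2
  have hl1 : (l : ℕ) ≤ N := Nat.lt_succ_iff.1 l.2
  have hm1' : ((m : ℕ) : ℝ) ≤ N := by exact_mod_cast hm1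
  have hl1' : ((l : ℕ) : ℝ) ≤ N := by exact_mod_cast hl1
  have hm0 : (0 : ℝ) ≤ ((m : ℕ) : ℝ) := Nat.cast_nonneg _
  have hl0 : (0 : ℝ) ≤ ((l : ℕ) : ℝ) := Nat.cast_nonneg _
  rcases lt_or_gt_of_ne hml with hlt | hlt
  · have h1 : ((m : ℕ) : ℝ) + 1 ≤ l := by exact_mod_cast hlt
    apply ne_of_gt
    apply Real.sin_pos_of_pos_of_lt_pi
    · nlinarith
    · nlinarith
  · have h1 : ((l : ℕ) : ℝ) + 1 ≤ m := by exact_mod_cast hlt
    apply ne_of_lt
    apply Real.sin_neg_of_neg_of_neg_pi_lt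
    · nlinarith
    · nlinarith

lemma uv_ne {N : ℕ} {m l : Fin (N + 1)} (h : m ≠ l) :
    uv (2 * m * ang N) ≠ uv (2 * l * ang N) := by
  intro h'
  apply sin_diff_ne h
  rw [← cr_uv, h']
  simp [cr]
  ring

/-- Horizontal directions of three members, not both bodies at the origin among them. -/
lemma W_noncol {N : ℕ} {i j k : Fin (N + 3)} (hij : i ≠ j) (hik : i ≠ k) (hjk : j ≠ k)
    (h01 : ¬ ((i = 0 ∨ j = 0 ∨ k = 0) ∧ (i = 1 ∨ j = 1 ∨ k = 1))) :
    cr (W N j - W N i) (W N k - W N i) ≠ 0 := by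
  have inj : ∀ {m l : Fin (N + 1)}, m.succ.succ ≠ l.succ.succ → m ≠ l := by
    intro m l h h'
    exact h (by rw [h'])
  rcases cases3 i with rfl | rfl | ⟨a, rfl⟩ <;> rcases cases3 j with rfl | rfl | ⟨b, rfl⟩ <;>
    rcases cases3 k with rfl | rfl | ⟨c, rfl⟩
  all_goals first
    | exact absurd rfl hij
    | exact absurd rfl hik
    | exact absurd rfl hjk
    | (exfalso; apply h01; refine ⟨?_, ?_⟩ <;> tauto)
    | skip
  · rw [W_zero, W_ss, W_ss, sub_zero, sub_zero, cr_uv]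
    exact sin_diff_ne (inj hjk)
  · rw [W_one, W_ss, W_ss, sub_zero, sub_zero, cr_uv]
    exact sin_diff_ne (inj hjk)
  · rw [W_zero, W_ss, W_ss]
    have : cr (0 - uv (2 * a * ang N)) (uv (2 * c * ang N) - uv (2 * a * ang N)) =
        -cr (uv (2 * a * ang N)) (uv (2 * c * ang N)) := by simp [cr]; ring
    rw [this, cr_uv]
    exact neg_ne_zero.2 (sin_diff_ne (inj hik))
  · rw [W_one, W_ss, W_ss]
    have : cr (0 - uv (2 * a * ang N)) (uv (2 * c * ang N) - uv (2 * a * ang N)) =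
        -cr (uv (2 * a * ang N)) (uv (2 * c * ang N)) := by simp [cr]; ring
    rw [this, cr_uv]
    exact neg_ne_zero.2 (sin_diff_ne (inj hik))
  · rw [W_zero, W_ss, W_ss]
    have : cr (uv (2 * b * ang N) - uv (2 * a * ang N)) (0 - uv (2 * a * ang N)) =
        cr (uv (2 * a * ang N)) (uv (2 * b * ang N)) := by simp [cr]; ring
    rw [this, cr_uv]
    exact sin_diff_ne (inj hij)
  · rw [W_one, W_ss, W_ss]
    have : cr (uv (2 * b * ang N) - uv (2 * a * ang N)) (0 - uv (2 * a * ang N)) =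
        cr (uv (2 * a * ang N)) (uv (2 * b * ang N)) := by simp [cr]; ring
    rw [this, cr_uv]
    exact sin_diff_ne (inj hij)
  · rw [W_ss, W_ss, W_ss]
    exact cr_unit (norm_uv _) (norm_uv _) (norm_uv _) (uv_ne (inj hij)) (uv_ne (inj hik))
      (uv_ne (inj hjk))

/-! ## Orientations -/

lemma det_val (q r s R ψ t : ℝ) (x : Fin 3 → E 3)
    (h0 : x 0 = vec (-(s : ℂ) * uv ψ) (-(s * r))) (h1 : x 1 = vec ((s : ℂ) * uv ψ) (s * r))
    (h2 : x 2 = vec ((R : ℂ) * uv t) (R * r * Real.cos (t - ψ))) :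
    Matrix.det (Matrix.of fun i j : Fin 3 =>
      if i = 0 then (vec (-((q * r : ℝ) : ℂ) * uv ψ) q) j else x i j - x 0 j) =
      2 * s * R * q * (1 + r ^ 2) * Real.sin (t - ψ) := by
  rw [Matrix.det_fin_three]
  simp only [Matrix.of_apply, h0, h1, h2, vec0, vec1, vec2, uv, if_true, Complex.mul_re,
    Complex.mul_im, Complex.ofReal_re, Complex.ofReal_im, Complex.neg_re, Complex.neg_im,
    show ((1 : Fin 3) = 0) = False by simp, show ((2 : Fin 3) = 0) = False by simp, if_false]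
  rw [Real.cos_sub, Real.sin_sub]
  ring

lemma orient_neg3 (u : E 3) (x : Fin 3 → E 3) : orient (-u) x = -orient u x := by
  unfold orient
  rw [← Left.sign_neg]
  congr 1
  rw [Matrix.det_fin_three, Matrix.det_fin_three]
  simp only [Matrix.of_apply, if_true, show ((1 : Fin 3) = 0) = False by simp,
    show ((2 : Fin 3) = 0) = False by simp, if_false, PiLp.neg_apply]
  ring

lemma inner_vec (z z' : ℂ) (h h' : ℝ) :
    inner ℝ (vec z h) (vec z' h') = z.re * z'.re + z.im * z'.im + h * h' := by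
  simp only [vec, PiLp.inner_apply, Fin.sum_univ_three]
  simp
  ring

lemma norm_vec_sq (z : ℂ) (h : ℝ) : ‖vec z h‖ ^ 2 = ‖z‖ ^ 2 + h ^ 2 := by
  rw [norm_sq, pr_vec, vec2]

/-! ## The transversal planes -/

/-- Data of the construction. -/
structure Data (N : ℕ) (ρ s δ R : ℝ) : Prop where
  hρ : 1 < ρ
  hs : 0 < s
  hs2 : s ^ 2 = ρ ^ 2 - 1
  hR : 0 < R
  hδ : δ = s * (1 / (R * Real.cos (ang N)))

lemma cos_ang_pos (N : ℕ) : 0 < Real.cos (ang N) := by
  apply Real.cos_pos_of_mem_Ioo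
  have h1 := ang_pos N
  have h2 := ang_mul N
  have hN : (0 : ℝ) ≤ N := Nat.cast_nonneg _
  constructor
  · nlinarith [Real.pi_pos]
  · nlinarith

/-- the angle of the `l`-th corner -/
noncomputable def psi (N : ℕ) (l : Fin N) : ℝ := (2 * l + 1) * ang N

/-- points of the `l`-th plane in the members of the family -/
noncomputable def pts (N : ℕ) (s R : ℝ) (l : Fin N) : Fin (N + 3) → E 3 :=
  Fin.cons (vec (-(s : ℂ) * uv (psi N l)) (-(s * (1 / (R * Real.cos (ang N))))))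
    (Fin.cons (vec ((s : ℂ) * uv (psi N l)) (s * (1 / (R * Real.cos (ang N)))))
      fun m : Fin (N + 1) => vec ((R : ℂ) * uv (2 * m * ang N))
        (R * (1 / (R * Real.cos (ang N))) * Real.cos (2 * m * ang N - psi N l)))

/-- normalising factor -/
noncomputable def qq (N : ℕ) (R : ℝ) : ℝ := (Real.sqrt (1 + (1 / (R * Real.cos (ang N))) ^ 2))⁻¹

/-- unit normal of the `l`-th plane -/
noncomputable def nor (N : ℕ) (R : ℝ) (l : Fin N) : E 3 :=
  vec (-((qq N R * (1 / (R * Real.cos (ang N))) : ℝ) : ℂ) * uv (psi N l)) (qq N R)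

lemma qq_pos (N : ℕ) (R : ℝ) : 0 < qq N R := by
  unfold qq
  positivity

lemma qq_sq (N : ℕ) (R : ℝ) : qq N R ^ 2 * (1 + (1 / (R * Real.cos (ang N))) ^ 2) = 1 := by
  unfold qq
  rw [inv_pow, Real.sq_sqrt (by positivity)]
  exact inv_mul_cancel₀ (by positivity)

lemma norm_nor (N : ℕ) (R : ℝ) (l : Fin N) : ‖nor N R l‖ = 1 := by
  have h : ‖nor N R l‖ ^ 2 = 1 := by
    unfold nor
    rw [norm_vec_sq, norm_mul, norm_neg, Complex.norm_real, norm_uv, mul_one, Real.norm_eq_abs,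
      sq_abs]
    linear_combination qq_sq N R
  nlinarith [norm_nonneg (nor N R l)]

lemma inner_nor (N : ℕ) (s R : ℝ) (l : Fin N) (i : Fin (N + 3)) :
    inner ℝ (nor N R l) (pts N s R l i) = 0 := by
  have hc := Real.sin_sq_add_cos_sq (psi N l)
  rcases cases3 i with rfl | rfl | ⟨m, rfl⟩
  · show inner ℝ (nor N R l) (vec (-(s : ℂ) * uv (psi N l))
      (-(s * (1 / (R * Real.cos (ang N)))))) = 0
    unfold nor
    rw [inner_vec]
    simp only [uv, Complex.mul_re, Complex.mul_im, Complex.ofReal_re, Complex.ofReal_im,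
      Complex.neg_re, Complex.neg_im]
    linear_combination (qq N R * (1 / (R * Real.cos (ang N))) * s) * hc
  · show inner ℝ (nor N R l) (vec ((s : ℂ) * uv (psi N l))
      (s * (1 / (R * Real.cos (ang N))))) = 0
    unfold nor
    rw [inner_vec]
    simp only [uv, Complex.mul_re, Complex.mul_im, Complex.ofReal_re, Complex.ofReal_im,
      Complex.neg_re, Complex.neg_im]
    linear_combination -(qq N R * (1 / (R * Real.cos (ang N))) * s) * hc
  · show inner ℝ (nor N R l) (vec ((R : ℂ) * uv (2 * m * ang N))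
        (R * (1 / (R * Real.cos (ang N))) * Real.cos (2 * m * ang N - psi N l))) = 0
    unfold nor
    rw [inner_vec, Real.cos_sub]
    simp only [uv, Complex.mul_re, Complex.mul_im, Complex.ofReal_re, Complex.ofReal_im,
      Complex.neg_re, Complex.neg_im]
    ring

/-- The cosine of odd multiples of the angle unit. -/
lemma cos_le (N : ℕ) (l : Fin N) (m : Fin (N + 1)) :
    |Real.cos (2 * m * ang N - psi N l)| ≤ Real.cos (ang N) := by
  have hp := ang_pos N
  have hm := ang_mul N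
  have hm1 : (m : ℕ) ≤ N := Nat.lt_succ_iff.1 m.2
  have hl1 : (l : ℕ) + 1 ≤ N := l.2
  have hm1' : ((m : ℕ) : ℝ) ≤ N := by exact_mod_cast hm1
  have hl1' : ((l : ℕ) : ℝ) + 1 ≤ N := by exact_mod_cast hl1
  have hm0 : (0 : ℝ) ≤ ((m : ℕ) : ℝ) := Nat.cast_nonneg _
  have hl0 : (0 : ℝ) ≤ ((l : ℕ) : ℝ) := Nat.cast_nonneg _
  have heq : 2 * ((m : ℕ) : ℝ) * ang N - psi N l = (2 * m - 2 * l - 1) * ang N := by
    unfold psi; ring
  rw [heq]
  rcases Nat.lt_or_ge (l : ℕ) (m : ℕ) with hlt | hge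
  · have h1 : ((l : ℕ) : ℝ) + 1 ≤ m := by exact_mod_cast hlt
    have hx : (1 : ℝ) ≤ 2 * m - 2 * l - 1 := by linarith
    have hy : (2 * (m : ℝ) - 2 * l - 1) * ang N ≤ Real.pi / 2 := by nlinarith
    have hpos : 0 ≤ Real.cos ((2 * (m : ℝ) - 2 * l - 1) * ang N) := by
      apply Real.cos_nonneg_of_mem_Icc
      constructor
      · nlinarith [Real.pi_pos]
      · exact hy
    rw [abs_of_nonneg hpos]
    apply Real.cos_le_cos_of_nonneg_of_le_pi hp.le
    · linarith [Real.pi_pos]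
    · nlinarith
  · have h1 : ((m : ℕ) : ℝ) ≤ l := by exact_mod_cast hge
    have hneg : (2 * (m : ℝ) - 2 * l - 1) * ang N = -((2 * l + 1 - 2 * m) * ang N) := by ring
    rw [hneg, Real.cos_neg]
    have hy : (2 * (l : ℝ) + 1 - 2 * m) * ang N ≤ Real.pi / 2 := by nlinarith
    have hpos : 0 ≤ Real.cos ((2 * (l : ℝ) + 1 - 2 * m) * ang N) := by
      apply Real.cos_nonneg_of_mem_Icc
      constructor
      · nlinarith [Real.pi_pos]
      · exact hy
    rw [abs_of_nonneg hpos]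
    apply Real.cos_le_cos_of_nonneg_of_le_pi hp.le
    · linarith [Real.pi_pos]
    · nlinarith

lemma pts_mem {N : ℕ} {ρ s δ R : ℝ} (D : Data N ρ s δ R) (l : Fin N) (i : Fin (N + 3)) :
    pts N s R l i ∈ fam N ρ δ R i := by
  have hρ0 : 0 ≤ ρ := by linarith [D.hρ]
  have hs2 := D.hs2
  have hR := D.hR
  have hcos := cos_ang_pos N
  have hδ := D.hδ
  rcases cases3 i with rfl | rfl | ⟨m, rfl⟩
  · rw [fam_zero]
    show vec (-(s : ℂ) * uv (psi N l)) (-(s * (1 / (R * Real.cos (ang N))))) ∈ SA ρ δ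
    rw [mem_SA hρ0, pr_vec, vec2, norm_mul, norm_neg, Complex.norm_real, norm_uv, mul_one,
      Real.norm_eq_abs, sq_abs, ← hδ]
    constructor
    · nlinarith
    · exact le_refl _
  · rw [fam_one]
    show vec ((s : ℂ) * uv (psi N l)) (s * (1 / (R * Real.cos (ang N)))) ∈ SB ρ δ
    rw [mem_SB hρ0, pr_vec, vec2, norm_mul, Complex.norm_real, norm_uv, mul_one,
      Real.norm_eq_abs, sq_abs, ← hδ]
    constructor
    · nlinarith
    · exact le_refl _
  · rw [fam_ss]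
    show vec ((R : ℂ) * uv (2 * m * ang N))
        (R * (1 / (R * Real.cos (ang N))) * Real.cos (2 * m * ang N - psi N l)) ∈
          SC R (uv (2 * m * ang N))
    rw [mem_SC, pr_vec, vec2, sub_self, norm_zero]
    have h1 : R * (1 / (R * Real.cos (ang N))) * Real.cos (2 * m * ang N - psi N l) =
        Real.cos (2 * m * ang N - psi N l) / Real.cos (ang N) := by
      field_simp
    rw [h1, div_pow, ← sq_abs (Real.cos (2 * m * ang N - psi N l))]
    have h2 := cos_le N l m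
    have h3 : |Real.cos (2 * m * ang N - psi N l)| ^ 2 / Real.cos (ang N) ^ 2 ≤ 1 := by
      rw [div_le_one (by positivity)]
      exact pow_le_pow_left₀ (abs_nonneg _) h2 2
    linarith

/-- the test triple -/
def tri {N : ℕ} (m : Fin (N + 1)) : Fin 3 → Fin (N + 3) := ![0, 1, m.succ.succ]

lemma orderType_eq {N : ℕ} {ρ s δ R : ℝ} (D : Data N ρ s δ R) (l : Fin N) (m : Fin (N + 1)) :
    orderType (nor N R l) (pts N s R l) (tri m) =
      SignType.sign (Real.sin (2 * m * ang N - psi N l)) := by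
  unfold orderType orient nor
  rw [det_val (qq N R) (1 / (R * Real.cos (ang N))) s R (psi N l) (2 * m * ang N)
    (fun i => pts N s R l (tri m i)) rfl rfl rfl]
  have hc := cos_ang_pos N
  have h : 0 < 2 * s * R * qq N R * (1 + (1 / (R * Real.cos (ang N))) ^ 2) := by
    have := D.hs
    have := D.hR
    have := qq_pos N R
    positivity
  rw [sign_mul, sign_pos h, one_mul]

lemma sign_of_lt {N : ℕ} {l : Fin N} {m : Fin (N + 1)} (h : (l : ℕ) < m) :
    SignType.sign (Real.sin (2 * m * ang N - psi N l)) = 1 := by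
  apply sign_pos
  have hp := ang_pos N
  have hm := ang_mul N
  have hm1 : (m : ℕ) ≤ N := Nat.lt_succ_iff.1 m.2
  have hm1' : ((m : ℕ) : ℝ) ≤ N := by exact_mod_cast hm1
  have hl0 : (0 : ℝ) ≤ ((l : ℕ) : ℝ) := Nat.cast_nonneg _
  have h1 : ((l : ℕ) : ℝ) + 1 ≤ m := by exact_mod_cast h
  unfold psi
  apply Real.sin_pos_of_pos_of_lt_pi
  · nlinarith
  · nlinarith

lemma sign_of_le {N : ℕ} {l : Fin N} {m : Fin (N + 1)} (h : (m : ℕ) ≤ l) :
    SignType.sign (Real.sin (2 * m * ang N - psi N l)) = -1 := by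
  apply sign_neg
  have hp := ang_pos N
  have hm := ang_mul N
  have hl1 : (l : ℕ) + 1 ≤ N := l.2
  have hl1' : ((l : ℕ) : ℝ) + 1 ≤ N := by exact_mod_cast hl1
  have hm0 : (0 : ℝ) ≤ ((m : ℕ) : ℝ) := Nat.cast_nonneg _
  have h1 : ((m : ℕ) : ℝ) ≤ l := by exact_mod_cast h
  unfold psi
  apply Real.sin_neg_of_neg_of_neg_pi_lt
  · nlinarith
  · nlinarith

lemma perms_inj {N : ℕ} {ρ s δ R : ℝ} (D : Data N ρ s δ R) :
    Function.Injective fun l : Fin N =>
      ({orderType (nor N R l) (pts N s R l), orderType (-(nor N R l)) (pts N s R l)} :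
        Set ((Fin 3 → Fin (N + 3)) → SignType)) := by
  have main : ∀ l l' : Fin N, (l : ℕ) < l' →
      ({orderType (nor N R l) (pts N s R l), orderType (-(nor N R l)) (pts N s R l)} :
        Set ((Fin 3 → Fin (N + 3)) → SignType)) ≠
      {orderType (nor N R l') (pts N s R l'), orderType (-(nor N R l')) (pts N s R l')} := by
    intro l l' hll heq
    have hmem : orderType (nor N R l) (pts N s R l) ∈
        ({orderType (nor N R l') (pts N s R l'), orderType (-(nor N R l')) (pts N s R l')} :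
          Set ((Fin 3 → Fin (N + 3)) → SignType)) := by
      rw [← heq]
      exact Set.mem_insert _ _
    rcases hmem with h | h
    · have h1 := congrFun h (tri l.succ)
      rw [orderType_eq D, orderType_eq D, sign_of_lt (by simp), sign_of_le (by simpa using hll)]
        at h1
      exact absurd h1 (by decide)
    · have h1 := congrFun h (tri 0)
      have h2 : orderType (-(nor N R l')) (pts N s R l') (tri 0) =
          -orderType (nor N R l') (pts N s R l') (tri 0) := by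
        unfold orderType
        exact orient_neg3 _ _
      rw [h2, orderType_eq D, orderType_eq D, sign_of_le (by simp), sign_of_le (by simp)] at h1
      exact absurd h1 (by decide)
  intro l l' heq
  rcases lt_trichotomy (l : ℕ) (l' : ℕ) with h | h | h
  · exact absurd heq (main l l' h)
  · exact Fin.ext h
  · exact absurd heq.symm (main l' l h)

open Filter in
lemma eventually_big (κ M : ℝ) (hκ : 0 < κ) :
    ∀ᶠ R : ℝ in atTop, 8 * M * R + 4 * M ^ 2 < R ^ 2 * κ := by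
  filter_upwards [eventually_ge_atTop 1, eventually_ge_atTop ((8 * M + 4 * M ^ 2 + 1) / κ)]
    with R h1 h2
  rw [div_le_iff₀ hκ] at h2
  nlinarith [sq_nonneg M]

open Filter in
/-- For every `ρ > 1` and every `N` there is a `1`-separated family of `N + 3` compact convex
`ρ`-stubby sets in `ℝ³` with at least `N` geometric permutations. -/
theorem result (ρ : ℝ) (hρ : 1 < ρ) (N : ℕ) :
    ∃ A : Fin (N + 3) → Set (E 3),
      (∀ i, IsCompact (A i) ∧ Convex ℝ (A i) ∧ Stubby ρ (A i)) ∧ Separated A ∧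
        (N : ℕ∞) ≤ (geomPerms A).encard := by
  classical
  have hcos := cos_ang_pos N
  have hcos1 : Real.cos (ang N) < 1 := by
    have hp := ang_pos N
    have hm := ang_mul N
    have hN : (0 : ℝ) ≤ N := Nat.cast_nonneg _
    rw [← Real.cos_zero]
    apply Real.cos_lt_cos_of_nonneg_of_le_pi le_rfl
    · nlinarith [Real.pi_pos]
    · exact hp
  set s : ℝ := Real.sqrt (ρ ^ 2 - 1) with hs_def
  have hρ2 : 0 < ρ ^ 2 - 1 := by nlinarith
  have hs : 0 < s := Real.sqrt_pos.2 hρ2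
  have hs2 : s ^ 2 = ρ ^ 2 - 1 := Real.sq_sqrt hρ2.le
  have ev1 : ∀ᶠ R : ℝ in atTop, ∀ f : Fin 3 → Fin (N + 3), Function.Injective f →
      ¬ ((f 0 = 0 ∨ f 1 = 0 ∨ f 2 = 0) ∧ (f 0 = 1 ∨ f 1 = 1 ∨ f 2 = 1)) →
      8 * ρ * R + 4 * ρ ^ 2 < R ^ 2 * |cr (W N (f 1) - W N (f 0)) (W N (f 2) - W N (f 0))| := by
    rw [eventually_all]
    intro f
    by_cases h1 : Function.Injective f
    · by_cases h2 : ((f 0 = 0 ∨ f 1 = 0 ∨ f 2 = 0) ∧ (f 0 = 1 ∨ f 1 = 1 ∨ f 2 = 1))
      · exact Eventually.of_forall fun R _ h => absurd h2 h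
      · have h3 := W_noncol (N := N) (i := f 0) (j := f 1) (k := f 2)
          (fun h => by simpa using h1 h) (fun h => by simpa using h1 h)
          (fun h => by simpa using h1 h) h2
        filter_upwards [eventually_big _ ρ (abs_pos.2 h3)] with R hR _ _
        exact hR
    · exact Eventually.of_forall fun R h => absurd h h1
  have ev2 : ∀ᶠ R : ℝ in atTop, (1 + ρ) / (1 - Real.cos (ang N)) < R := eventually_gt_atTop _
  have ev3 : ∀ᶠ R : ℝ in atTop, 1 + ρ + 1 / s ≤ R := eventually_ge_atTop _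
  obtain ⟨R, hR1, hR2, hR3⟩ := (ev1.and (ev2.and ev3)).exists
  have hR0 : 0 < R := by
    have : 0 < 1 / s := by positivity
    linarith
  rw [div_lt_iff₀ (by linarith)] at hR2
  set δ : ℝ := s * (1 / (R * Real.cos (ang N))) with hδ_def
  have hδ : 0 < δ := by positivity
  have D : Data N ρ s δ R := ⟨hρ, hs, hs2, hR0, rfl⟩
  refine ⟨fam N ρ δ R, ?_, ?_, ?_⟩
  · intro i
    rcases cases3 i with rfl | rfl | ⟨m, rfl⟩
    · exact ⟨SA_compact _ _, SA_convex _ _, SA_stubby hρ⟩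
    · exact ⟨SB_compact _ _, SB_convex _ _, SB_stubby hρ⟩
    · exact ⟨isCompact_closedBall _ _, convex_closedBall _ _, SC_stubby hρ⟩
  · intro f hf F hF hall
    have hF1 : Module.finrank ℝ F.direction = 1 := hF
    choose x hx using hall
    by_cases h01 : ((f 0 = 0 ∨ f 1 = 0 ∨ f 2 = 0) ∧ (f 0 = 1 ∨ f 1 = 1 ∨ f 2 = 1))
    · -- both bodies at the origin are among the three members
      obtain ⟨a, b, c, hac, hbc, ha, hb⟩ : ∃ a b c : Fin 3, c ≠ a ∧ c ≠ b ∧ f a = 0 ∧ f b = 1 := by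
        obtain ⟨h0, h1⟩ := h01
        rcases h0 with h0 | h0 | h0 <;> rcases h1 with h1 | h1 | h1
        · exact absurd (h0.symm.trans h1) (by simp)
        · exact ⟨0, 1, 2, by decide, by decide, h0, h1⟩
        · exact ⟨0, 2, 1, by decide, by decide, h0, h1⟩
        · exact ⟨1, 0, 2, by decide, by decide, h0, h1⟩
        · exact absurd (h0.symm.trans h1) (by simp)
        · exact ⟨1, 2, 0, by decide, by decide, h0, h1⟩
        · exact ⟨2, 0, 1, by decide, by decide, h0, h1⟩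
        · exact ⟨2, 1, 0, by decide, by decide, h0, h1⟩
        · exact absurd (h0.symm.trans h1) (by simp)
      have hc0 : f c ≠ 0 := fun h => hac (hf (h.trans ha.symm))
      have hc1 : f c ≠ 1 := fun h => hbc (hf (h.trans hb.symm))
      obtain ⟨m, hm⟩ : ∃ m : Fin (N + 1), f c = m.succ.succ := by
        rcases cases3 (f c) with h | h | h
        · exact absurd h hc0
        · exact absurd h hc1
        · exact h
      have xa := (hx a).1
      have xb := (hx b).1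
      have xc := (hx c).1
      rw [ha, fam_zero] at xa
      rw [hb, fam_one] at xb
      rw [hm, fam_ss] at xc
      refine no_line_ABC hρ hs hs2 hδ (norm_uv _) hR0.le ?_ ?_ hF1 (hx a).2 (hx b).2 (hx c).2
        xa xb xc
      · have : 1 / s * s = 1 := by field_simp
        nlinarith
      · have h1 : δ * (R * Real.cos (ang N)) = s := by
          rw [hδ_def]
          field_simp
        nlinarith
    · have hbig := hR1 f hf h01
      have hb : ∀ i, ‖pr (x i) - R * W N (f i)‖ ≤ ρ := by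
        intro i
        have h := (hx i).1
        rcases cases3 (f i) with h' | h' | ⟨m, h'⟩
        · rw [h', fam_zero] at h
          rw [h', W_zero, mul_zero, sub_zero]
          exact SA_pr (by linarith) h
        · rw [h', fam_one] at h
          rw [h', W_one, mul_zero, sub_zero]
          exact SB_pr (by linarith) h
        · rw [h', fam_ss] at h
          rw [h', W_ss]
          exact (SC_pr h).trans hρ.le
      exact far_noncollinear (by linarith) hR0.le (hb 0) (hb 1) (hb 2) (norm_W_le _ _)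
        (norm_W_le _ _) (norm_W_le _ _) hbig (col_cr hF1 (hx 0).2 (hx 1).2 (hx 2).2)
  · have hsub : Set.range (fun l : Fin N =>
        ({orderType (nor N R l) (pts N s R l), orderType (-(nor N R l)) (pts N s R l)} :
          Set ((Fin 3 → Fin (N + 3)) → SignType))) ⊆ geomPerms (fam N ρ δ R) := by
      rintro _ ⟨l, rfl⟩
      exact ⟨nor N R l, 0, pts N s R l, norm_nor N R l,
        fun i => ⟨pts_mem D l i, inner_nor N s R l i⟩, rfl⟩
    refine le_trans ?_ (Set.encard_le_encard hsub)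
    refine le_trans ?_ (perms_inj D).encard_range
    simp

end Pool.Agent.Results.MP_2c58a9_co.ManyPerms
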